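import Pool.Agent.H65.SG.Alg

/-!
# Real semigroups in `ℓ¹(S, w)` are nowhere measurable and nowhere continuous

`ℓ¹(S, w)` is the convolution algebra of the formal sums `∑ λ_r X^r`, `r ∈ S ⊆ (0, ∞)`, with
`∑ |λ_r| w(r) < ∞`; the weight `w` is bounded below by positive constants on the bounded parts of
`S`. A real semigroup `(a^t)_{t > 0}` in `ℓ¹(S, w)` vanishes identically as soon as it is norm
continuous at ONE point, or measurable on ONE set of positive Lebesgue measure. The same holds in a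
radical Banach algebra which has a non-nilpotent element of finite closed descent.
-/

set_option autoImplicit false

namespace Pool.Agent.Results.MP_46f8bc_an.MeasurableSemigroups

open Set Filter Topology MeasureTheory

/-- The positive rationals, as a subset of `ℝ`. -/
def QPos : Set ℝ := {r | 0 < r ∧ ∃ q : ℚ, (q : ℝ) = r}

/-- A semigroup `(a t)_{t > 0}` in `ℓ¹(S, w)`, no continuity assumed: `a t r` is the coefficient of
`X ^ r` in `a t`, the coefficients off `S` are zero, the norm `∑ |a t r| w r` is finite, and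
`a (s + t)` is the product (convolution) of `a s` and `a t`. -/
structure IsSemigroup (S : Set ℝ) (w : ℝ → ℝ) (a : ℝ → ℝ → ℂ) : Prop where
  supp : ∀ t, 0 < t → ∀ r, r ∉ S → a t r = 0
  norm : ∀ t, 0 < t → Summable fun r => ‖a t r‖ * w r
  mul : ∀ s t, 0 < s → 0 < t → ∀ v, a (s + t) v = ∑' r, a s r * a t (v - r)

/-- `t ↦ a t` is continuous at `t₀` in the norm of `ℓ¹(S, w)`. -/
def ContAt (w : ℝ → ℝ) (a : ℝ → ℝ → ℂ) (t₀ : ℝ) : Prop :=
  Tendsto (fun t => ∑' r, ‖a t r - a t₀ r‖ * w r) (𝓝 t₀) (𝓝 0)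

/-- The functions `t ↦ a t r` are Lebesgue measurable on the set `P ⊆ (0, ∞)`, which is measurable
and of positive measure. -/
def MeasOn (P : Set ℝ) (a : ℝ → ℝ → ℂ) : Prop :=
  MeasurableSet P ∧ P ⊆ Ioi 0 ∧ volume P ≠ 0 ∧
    ∀ r, AEMeasurable (fun t => a t r) (volume.restrict P)

/-- `pw a n` is the power `a ^ (n + 1)` (the algebra need not have a unit). -/
def pw {R : Type} [Mul R] (a : R) : ℕ → R
  | 0 => a
  | n + 1 => a * pw a n

theorem general (S : Set ℝ) (hS : S ⊆ Ioi 0) (w : ℝ → ℝ)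
    (hw : ∀ T : ℝ, ∃ c : ℝ, 0 < c ∧ ∀ r ∈ S, r < T → c ≤ w r) (a : ℝ → ℝ → ℂ)
    (ha : IsSemigroup S w a)
    (h : (∃ P, MeasOn P a ∧ ∃ D : Set ℝ, D.Countable ∧ ∀ t ∈ P, ∀ r, r ∉ D → a t r = 0) ∨
      ∃ t₀, 0 < t₀ ∧ ContAt w a t₀) (t : ℝ) (ht : 0 < t) : a t = 0 := by
  classical
  set w' : ℝ → ℝ := fun r => if r ∈ S then w r else 1 with hw'
  have hww : ∀ f : ℝ → ℂ, (∀ r, r ∉ S → f r = 0) → ∀ r, ‖f r‖ * w' r = ‖f r‖ * w r := by
    intro f hf r
    by_cases hr : r ∈ S
    · simp [hw', hr]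
    · simp [hf r hr]
  have hinj : Function.Injective (AddMonoidHom.id ℝ) := fun x y h => h
  have hsemi : Pool.Agent.H65.SG.Semi (AddMonoidHom.id ℝ) w' a := by
    refine ⟨fun T => ?_, fun r => ?_, fun t ht r hr => ha.supp t ht r fun h => ?_, fun t ht => ?_,
      ha.mul⟩
    · obtain ⟨c, hc, h1⟩ := hw T
      refine ⟨min c 1, lt_min hc one_pos, fun r _ hr => ?_⟩
      by_cases hrS : r ∈ S
      · simp only [hw', if_pos hrS]
        exact (min_le_left _ _).trans (h1 r hrS hr)
      · simp only [hw', if_neg hrS]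
        exact min_le_right _ _
    · by_cases hrS : r ∈ S
      · obtain ⟨c, hc, h1⟩ := hw (r + 1)
        simp only [hw', if_pos hrS]
        exact hc.le.trans (h1 r hrS (by linarith))
      · simp [hw', hrS]
    · exact absurd (hS h) (not_lt.2 hr)
    · simp only [hww (a t) (ha.supp t ht)]
      exact ha.norm t ht
  funext r
  rcases h with ⟨P, ⟨hP, hP0, h0, hm⟩, D, hD, hDP⟩ | ⟨t₀, ht₀, hc⟩
  · exact hsemi.eq_zero_of_meas hinj hP hP0 h0 hD hDP hm ht r
  · refine hsemi.eq_zero_of_cont hinj ht₀ ?_ ht r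
    refine hc.congr' ?_
    filter_upwards [lt_mem_nhds ht₀] with u hu
    refine tsum_congr fun r => (hww (fun r => a u r - a t₀ r) (fun r hr => ?_) r).symm
    simp [ha.supp u hu r hr, ha.supp t₀ ht₀ r hr]

theorem qpos_countable : QPos.Countable := by
  refine (countable_range (fun q : ℚ => (q : ℝ))).mono ?_
  rintro r ⟨-, q, hq⟩
  exact ⟨q, hq⟩

/-- (1) `Q2`: a semigroup in `ℓ¹(ℚ⁺, e^(-t²))` which is norm-continuous at one point, or whose
coefficients are measurable on one set of positive measure, is zero.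
(2) The same in `ℓ¹(S, w)` for every `S ⊆ (0, ∞)` and every `w` bounded below by positive constants
on the bounded parts of `S` (for uncountable `S`, measurable on `P` includes that for `t ∈ P` the
coefficients of `a t` vanish off one countable set).
(3) `Q1`: there is a commutative radical Banach algebra with a non-nilpotent element of finite
closed descent, in which every semigroup that is norm-continuous at one point, or strongly measurable
on one set of positive measure, is zero. -/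
theorem result :
    (∀ a : ℝ → ℝ → ℂ, IsSemigroup QPos (fun r => Real.exp (-r ^ 2)) a →
      ((∃ t₀, 0 < t₀ ∧ ContAt (fun r => Real.exp (-r ^ 2)) a t₀) ∨ ∃ P, MeasOn P a) →
      ∀ t, 0 < t → a t = 0) ∧
    (∀ (S : Set ℝ) (w : ℝ → ℝ), S ⊆ Ioi 0 →
      (∀ T : ℝ, ∃ c : ℝ, 0 < c ∧ ∀ r ∈ S, r < T → c ≤ w r) →
      ∀ a : ℝ → ℝ → ℂ, IsSemigroup S w a →
      ((∃ t₀, 0 < t₀ ∧ ContAt w a t₀) ∨
        ∃ P, MeasOn P a ∧ ∃ D : Set ℝ, D.Countable ∧ ∀ t ∈ P, ∀ r, r ∉ D → a t r = 0) →
      ∀ t, 0 < t → a t = 0) ∧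
    (∃ (R : Type) (_ : NonUnitalNormedCommRing R) (_ : NormedSpace ℂ R)
      (_ : IsScalarTower ℂ R R) (_ : SMulCommClass ℂ R R) (_ : CompleteSpace R),
      (∀ x : R, spectralRadius ℂ (x : Unitization ℂ R) = 0) ∧
      (∃ b : R, (∀ n, pw b n ≠ 0) ∧
        ∃ n, pw b n ∈ closure (Set.range fun r : R => pw b (n + 1) * r)) ∧
      ∀ a : ℝ → R, (∀ s t, 0 < s → 0 < t → a (s + t) = a s * a t) →
        ((∃ t₀, 0 < t₀ ∧ ContinuousAt a t₀) ∨
          ∃ P : Set ℝ, MeasurableSet P ∧ P ⊆ Ioi 0 ∧ volume P ≠ 0 ∧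
            AEStronglyMeasurable a (volume.restrict P)) →
        ∀ t, 0 < t → a t = 0) := by
  refine ⟨fun a ha h t ht => ?_, fun S w hS hw a ha h t ht => general S hS w hw a ha h.symm t ht,
    ?_⟩
  · refine general QPos (fun r hr => hr.1) _ (fun T => ?_) a ha ?_ t ht
    · refine ⟨Real.exp (-T ^ 2), Real.exp_pos _, fun r hr hT => Real.exp_le_exp.2 ?_⟩
      have := hr.1
      nlinarith
    · rcases h with h | ⟨P, hP⟩
      · exact Or.inr h
      · exact Or.inl ⟨P, hP, QPos, qpos_countable, fun t ht r hr =>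
          ha.supp t (hP.2.1 ht) r hr⟩
  · obtain ⟨b, hb⟩ := Pool.Agent.H3.Sg.ex_a
    have hd : ∀ n, DenseRange (fun y => pw b n * y) := by
      intro n
      induction n with
      | zero => exact hb
      | succ n ih =>
        have := hb.comp ih (continuous_const.mul continuous_id)
        simpa only [Function.comp_def, pw, mul_assoc] using this
    refine ⟨Pool.Agent.H3.Sg.RA, inferInstance, inferInstance, inferInstance, inferInstance,
      inferInstance, fun x => ?_, ⟨b, fun n h0 => ?_, 0, hd 1 _⟩, fun a hm h t ht =>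
        Pool.Agent.H65.SG.RA_zero hm h.symm ht⟩
    · refine le_antisymm (iSup₂_le fun k hk => ?_) bot_le
      rw [Pool.Agent.H3.Sg.spec x hk]; simp
    · have h1 := hd n (Pool.Agent.H3.Sg.eR ⟨1, one_pos⟩)
      simp only [h0, zero_mul, Set.range_const, closure_singleton, Set.mem_singleton_iff] at h1
      have h2 := Pool.Agent.H3.Sg.norm_eR ⟨1, one_pos⟩
      rw [h1, norm_zero] at h2
      exact zero_ne_one h2

end Pool.Agent.Results.MP_46f8bc_an.MeasurableSemigroups
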